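import Pool.Agent.Lib.MP_dff12b_nt.AllV

/-!
MP_dff12b_nt: for every admissible pair (d, k) there are at least c x/(log x)^2 primes p up to x such that
p^d + k is positive and has at most d + log_2(2 + log log d) + C prime factors counted with multiplicity, where C
is an absolute constant, and all these prime factors are larger than x^δ.
-/

namespace Pool.Agent.Results.MP_dff12b_nt.AlmostPrimes

theorem result : ∃ C : ℝ, ∀ d : ℕ, 1 < d → Odd d → ∀ k : ℤ, Even k →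
    (∀ e : ℕ, 1 < e → e ∣ d → ¬ ∃ a : ℤ, k = a ^ e) →
    ∃ c x0 δ : ℝ, 0 < c ∧ 0 < δ ∧ ∀ x : ℝ, x0 ≤ x →
      c * x / (Real.log x) ^ 2 ≤ (Set.ncard {p : ℕ | p.Prime ∧ (p : ℝ) ≤ x ∧ ∃ n : ℕ, 0 < n ∧
        (n : ℤ) = (p : ℤ) ^ d + k ∧
        (ArithmeticFunction.cardFactors n : ℝ) ≤ d + Real.logb 2 (2 + Real.log (Real.log d)) + C ∧
        ∀ q : ℕ, q.Prime → q ∣ n → x ^ δ < q} : ℝ) := by
  obtain ⟨C, c0, _, _, h⟩ := Pool.Agent.MPdff.V.final
  refine ⟨C, ?_⟩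
  intro d hd hodd k hk hadm
  have hadm' : ∀ e : ℕ, 1 < e → e ∣ d → ¬ ∃ m : ℤ, m ^ e = k := by
    rintro e he hed ⟨m, hm⟩
    exact hadm e he hed ⟨m, hm.symm⟩
  exact (h d hd hodd k hk hadm').2

end Pool.Agent.Results.MP_dff12b_nt.AlmostPrimes
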